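import Mathlib
import Pool.Agent.V11169.KR6

set_option autoImplicit false

namespace Pool.Agent.Results.MP_8ca5b0_lc.ConvexComb

open MeasureTheory

/-- `U` is a universal (optimal) plain machine: a partial computable function on binary strings
that simulates every partial computable function with a constant loss in program length. -/
def Universal (U : List Bool →. List Bool) : Prop :=
  Partrec U ∧ ∀ M : List Bool →. List Bool, Partrec M →
    ∃ c : ℕ, ∀ p x : List Bool, x ∈ M p → ∃ q : List Bool, x ∈ U q ∧ q.length ≤ p.length + c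

/-- The plain Kolmogorov complexity of `x` with respect to the machine `U`. -/
noncomputable def C (U : List Bool →. List Bool) (x : List Bool) : ℕ :=
  sInf {k : ℕ | ∃ q : List Bool, q.length = k ∧ x ∈ U q}

/-- The initial-segment complexity of the measure `μ` at length `n`: the `μ`-weighted average of
plain complexity over the strings of length `n`. -/
noncomputable def measureComplexity (U : List Bool →. List Bool) (μ : Measure (ℕ → Bool))
    (n : ℕ) : ℝ :=
  ∑ x : Fin n → Bool,
    (μ {Z : ℕ → Bool | ∀ i : Fin n, Z i = x i}).toReal * (C U (List.ofFn x) : ℝ)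

/-- `μ` is Kolmogorov random: for some `d`, for infinitely many `n`, the complexity of `μ` at
length `n` is at least `n - d`. -/
def KolmogorovRandom (U : List Bool →. List Bool) (μ : Measure (ℕ → Bool)) : Prop :=
  ∃ d : ℝ, {n : ℕ | (n : ℝ) - d ≤ measureComplexity U μ n}.Infinite

theorem kr_iff (U : List Bool →. List Bool) (μ : Measure (ℕ → Bool)) [IsProbabilityMeasure μ] :
    KolmogorovRandom U μ ↔ V11169.KR.KRand U μ := by
  unfold KolmogorovRandom V11169.KR.KRand
  refine exists_congr fun d => ?_
  rw [← Nat.frequently_atTop_iff_infinite]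
  have h : ∀ n : ℕ, measureComplexity U μ n
      = ∫ Z, (V11169.KR.cx U (H561R3.pre Z n) : ℝ) ∂μ := by
    intro n
    exact (V11169.KR.integral_pre μ n (fun x => (V11169.KR.cx U x : ℝ))).symm
  simp only [h]

/-- Every convex combination of two Kolmogorov random measures is Kolmogorov random. -/
theorem result : ∀ U : List Bool →. List Bool, Universal U →
    ∀ μ ν : Measure (ℕ → Bool), IsProbabilityMeasure μ → IsProbabilityMeasure ν →
      KolmogorovRandom U μ → KolmogorovRandom U ν →
      ∀ t : ℝ, 0 ≤ t → t ≤ 1 →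
        IsProbabilityMeasure (ENNReal.ofReal t • μ + ENNReal.ofReal (1 - t) • ν) ∧
        KolmogorovRandom U (ENNReal.ofReal t • μ + ENNReal.ofReal (1 - t) • ν) := by
  intro U hU μ ν hμ hν h1 h2 t ht0 ht1
  have hprob : IsProbabilityMeasure (ENNReal.ofReal t • μ + ENNReal.ofReal (1 - t) • ν) := by
    constructor
    simp only [Measure.coe_add, Measure.coe_smul, Pi.add_apply, Pi.smul_apply, measure_univ,
      smul_eq_mul, mul_one]
    rw [← ENNReal.ofReal_add ht0 (by linarith)]
    simp
  refine ⟨hprob, ?_⟩
  obtain ⟨Q, hQ⟩ := V11169.KR.main hU.1 hU.2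
  rw [kr_iff] at h1 h2 ⊢
  obtain ⟨D1, hD1⟩ := (hQ μ).1 h1
  obtain ⟨D2, hD2⟩ := (hQ ν).1 h2
  refine (hQ _).2 ⟨max D1 D2, fun m => ?_⟩
  have i1 := V11169.KR.integrable_pre μ (V11169.KR.EC Q m).1 (V11169.KR.Phi Q m)
  have i2 := V11169.KR.integrable_pre ν (V11169.KR.EC Q m).1 (V11169.KR.Phi Q m)
  rw [integral_add_measure (i1.smul_measure ENNReal.ofReal_ne_top)
    (i2.smul_measure ENNReal.ofReal_ne_top), integral_smul_measure, integral_smul_measure,
    ENNReal.toReal_ofReal ht0, ENNReal.toReal_ofReal (by linarith), smul_eq_mul, smul_eq_mul]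
  have h2m : (0 : ℝ) < 2 ^ m := by positivity
  have g1 := (hD1 m).trans (mul_le_mul_of_nonneg_left (le_max_left D1 D2) h2m.le)
  have g2 := (hD2 m).trans (mul_le_mul_of_nonneg_left (le_max_right D1 D2) h2m.le)
  have g3 := mul_le_mul_of_nonneg_left g1 ht0
  have g4 := mul_le_mul_of_nonneg_left g2 (show (0 : ℝ) ≤ 1 - t by linarith)
  nlinarith

end Pool.Agent.Results.MP_8ca5b0_lc.ConvexComb
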